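import Pool.Agent.Q64.GL.Stm

/-!
# Project GL of helper64, job TMM: simple properties of the tangential maximal function
-/

set_option autoImplicit false

open MeasureTheory Set Filter Topology
open scoped ENNReal NNReal Real

namespace Pool.Agent.Q176.GL

open Pool.Agent.Q64.GL

theorem base_pos {x z y : ℝ} (hy : 0 < y) : 0 < y / (|x - z| + y) := by
  have : 0 ≤ |x - z| := abs_nonneg _
  positivity

theorem ker_pos {a x z y : ℝ} (hy : 0 < y) : 0 < ker a x z y :=
  Real.rpow_pos_of_pos (base_pos hy) _

theorem ker_cont {a z y : ℝ} (hy : 0 < y) : Continuous fun x => ker a x z y := by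
  unfold Pool.Agent.Q64.GL.ker
  have h1 : Continuous fun x : ℝ => y / (|x - z| + y) := by
    refine continuous_const.div (by fun_prop) fun x => ?_
    have : 0 ≤ |x - z| := abs_nonneg _
    positivity
  exact h1.rpow_const fun x => Or.inl (base_pos hy).ne'

theorem term_lsc {a z y : ℝ} (hy : 0 < y) (c : ℝ≥0∞) :
    LowerSemicontinuous fun x => ENNReal.ofReal (ker a x z y) * c := by
  by_cases hc : c = ∞
  · have h : (fun x => ENNReal.ofReal (ker a x z y) * c) = fun _ => ∞ := by
      funext x
      rw [hc, ENNReal.mul_top]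
      exact (ENNReal.ofReal_pos.2 (ker_pos hy)).ne'
    rw [h]
    exact lowerSemicontinuous_const
  · have h1 : Continuous fun x => ENNReal.ofReal (ker a x z y) * c :=
      (ENNReal.continuous_mul_const hc).comp (ENNReal.continuous_ofReal.comp (ker_cont hy))
    exact h1.lowerSemicontinuous

theorem t_TMM : S_TMM := by
  intro a ha
  refine ⟨fun f => ?_, fun f hf x => ?_, fun c f hf hc x => ?_, fun f hf hne x h0 => ?_⟩
  · refine LowerSemicontinuous.measurable ?_
    unfold TM
    refine lowerSemicontinuous_iSup fun z => lowerSemicontinuous_iSup fun y =>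
      lowerSemicontinuous_iSup fun hy => ?_
    exact term_lsc hy _
  · unfold TM
    refine iSup_le fun z => iSup_le fun y => iSup_le fun hy => ?_
    have h1 : m (fun x => ∑' n, f n x) z y = ∑' n, m (f n) z y := by
      unfold m
      exact lintegral_tsum fun n => (hf n).aemeasurable
    rw [h1, div_eq_mul_inv, ← ENNReal.tsum_mul_right, ← ENNReal.tsum_mul_left]
    refine ENNReal.tsum_le_tsum fun n => ?_
    rw [← div_eq_mul_inv]
    exact le_iSup_of_le z (le_iSup_of_le y (le_iSup_of_le hy le_rfl))
  · unfold TM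
    refine iSup_le fun z => iSup_le fun y => iSup_le fun hy => ?_
    have h1 : m (fun x => c * f x) z y = c * m f z y := by
      unfold m
      exact lintegral_const_mul c hf
    rw [h1, mul_div_assoc, mul_left_comm]
    gcongr
    exact le_iSup_of_le z (le_iSup_of_le y (le_iSup_of_le hy le_rfl))
  · apply hne
    have h1 : ∀ N : ℕ, m f 0 ((N : ℝ) + 1) = 0 := by
      intro N
      have hN : (0 : ℝ) < (N : ℝ) + 1 := by positivity
      have h2 : ENNReal.ofReal (ker a x 0 ((N : ℝ) + 1)) * (m f 0 ((N : ℝ) + 1) /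
          ENNReal.ofReal (2 * ((N : ℝ) + 1))) ≤ 0 := by
        rw [← h0]
        unfold TM
        exact le_iSup_of_le 0 (le_iSup_of_le ((N : ℝ) + 1) (le_iSup_of_le hN le_rfl))
      have h3 := le_antisymm h2 zero_le
      rcases mul_eq_zero.1 h3 with h4 | h4
      · exact absurd h4 (ENNReal.ofReal_pos.2 (ker_pos hN)).ne'
      · rcases ENNReal.div_eq_zero_iff.1 h4 with h5 | h5
        · exact h5
        · exact absurd h5 ENNReal.ofReal_ne_top
    have h2 : ∀ N : ℕ, ∀ᵐ x : ℝ, x ∈ Ioo (0 - ((N : ℝ) + 1)) (0 + ((N : ℝ) + 1)) → f x = 0 := by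
      intro N
      have h3 := (lintegral_eq_zero_iff hf).1 (h1 N)
      exact (ae_restrict_iff' measurableSet_Ioo).1 h3
    have h3 := ae_all_iff.2 h2
    filter_upwards [h3] with x hx
    obtain ⟨N, hN⟩ := exists_nat_gt |x|
    refine hx N ?_
    have := abs_lt.1 (hN.trans (lt_add_one (N : ℝ)))
    exact ⟨by linarith [this.1], by linarith [this.2]⟩

end Pool.Agent.Q176.GL
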